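import Mathlib

set_option autoImplicit false

/-! Arithmetic of the powers of `b` modulo powers of `a`. -/

namespace Pool.Agent.H810R3.Spa

theorem one_add_pow (x : ℤ) (i : ℕ) : ∃ s : ℤ, (1 + x) ^ i = 1 + i * x + x ^ 2 * s := by
  induction i with
  | zero => exact ⟨0, by simp⟩
  | succ i ih =>
    obtain ⟨s, hs⟩ := ih
    refine ⟨i + s + s * x, ?_⟩
    rw [pow_succ, hs]
    push_cast
    ring

/-- Splitting off the part coprime to `a`. -/
theorem split (a : ℕ) (ha : 2 ≤ a) : ∀ u : ℕ, 0 < u → ∃ E w : ℕ, u = E * w ∧ Nat.Coprime w a ∧ 0 < E := by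
  intro u
  induction u using Nat.strong_induction_on with
  | _ u ih =>
    intro hu
    by_cases hg : Nat.Coprime u a
    · exact ⟨1, u, by simp, hg, one_pos⟩
    · have hg1 : 1 < Nat.gcd u a := by
        have h0 : 0 < Nat.gcd u a := Nat.gcd_pos_of_pos_left a hu
        unfold Nat.Coprime at hg
        omega
      obtain ⟨v, hv⟩ := Nat.gcd_dvd_left u a
      have hv0 : 0 < v := by
        rcases Nat.eq_zero_or_pos v with h | h
        · rw [h, mul_zero] at hv; omega
        · exact h
      have hvu : v < u := by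
        rw [hv]
        nlinarith
      obtain ⟨E, w, h1, h2, h3⟩ := ih v hvu hv0
      refine ⟨Nat.gcd u a * E, w, ?_, h2, by positivity⟩
      conv_lhs => rw [hv, h1]
      ring

/-- The powers `b^(t a^j)`. -/
theorem powers (a b : ℕ) (ha : 2 ≤ a) (hb : 2 ≤ b) (hab : Nat.Coprime a b) :
    ∃ t E : ℕ, 0 < t ∧ 0 < E ∧ ∀ j : ℕ, ∃ w : ℤ, IsCoprime w (a : ℤ) ∧
      (b : ℤ) ^ (t * a ^ j) = 1 + E * a ^ j * w := by
  set t := Nat.totient (a ^ 2) with ht
  have ht0 : 0 < t := Nat.totient_pos.2 (by positivity)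
  have h1 : b ^ t ≡ 1 [MOD a ^ 2] := Nat.ModEq.pow_totient (Nat.Coprime.pow_right 2 hab.symm)
  have hbt : 1 < b ^ t := Nat.one_lt_pow ht0.ne' hb
  have h2 : a ^ 2 ∣ b ^ t - 1 := (Nat.modEq_iff_dvd' hbt.le).1 h1.symm
  obtain ⟨E, w, h3, h4, h5⟩ := split a ha (b ^ t - 1) (by omega)
  have h6 : a ^ 2 ∣ E := by
    rw [h3] at h2
    exact Nat.Coprime.dvd_of_dvd_mul_right (Nat.Coprime.pow_left 2 h4.symm) h2
  obtain ⟨F, hF⟩ := h6
  refine ⟨t, E, ht0, h5, ?_⟩
  intro j
  induction j with
  | zero =>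
    refine ⟨w, Nat.isCoprime_iff_coprime.2 h4, ?_⟩
    have : (b : ℤ) ^ t = (b ^ t - 1 : ℕ) + 1 := by
      rw [Nat.cast_sub hbt.le]
      push_cast
      ring
    rw [pow_zero, mul_one, this, h3]
    push_cast
    ring
  | succ j ih =>
    obtain ⟨v, hv, hpow⟩ := ih
    obtain ⟨s, hs⟩ := one_add_pow (E * a ^ j * v) a
    refine ⟨v + a * (F * a ^ j * v ^ 2 * s), ?_, ?_⟩
    · exact (IsCoprime.add_mul_left_left_iff).2 hv
    · have e1 : t * a ^ (j + 1) = (t * a ^ j) * a := by ring
      rw [e1, pow_mul, hpow, hs]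
      have e2 : (E : ℤ) = a ^ 2 * F := by
        rw [hF]; push_cast; ring
      rw [pow_succ (a : ℤ) j]
      have e3 : ((E : ℤ) * a ^ j * v) ^ 2 * s = E * (a ^ j * a) * (a * (F * a ^ j * v ^ 2 * s)) := by
        rw [e2]; ring
      rw [e3]
      ring

/-- Translation of sums of periodic functions. -/
theorem sum_shift {P : ℕ} {F : ℕ → ℝ} (hF : ∀ m, F (m + P) = F m) (s : ℕ) :
    ∑ m ∈ Finset.range P, F (m + s) = ∑ m ∈ Finset.range P, F m := by
  induction s with
  | zero => simp
  | succ s ih =>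
    rw [← ih]
    have h1 := Finset.sum_range_succ (fun m => F (m + s)) P
    have h2 := Finset.sum_range_succ' (fun m => F (m + s)) P
    have h3 : F (P + s) = F (0 + s) := by
      rw [add_comm P s, hF, zero_add]
    have h4 : ∑ m ∈ Finset.range P, F (m + 1 + s) = ∑ m ∈ Finset.range P, F (m + (s + 1)) :=
      Finset.sum_congr rfl fun m _ => by rw [add_right_comm, add_assoc]
    rw [← h4]
    linarith

/-- The mean of `|cos|` over a nontrivial finite rotation. -/
theorem cos_mean (q : ℕ) (hq : 0 < q) (α β : ℝ) (hβ : ∀ z : ℤ, β ≠ z) (hqβ : ∃ z : ℤ, q * β = z) :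
    ∑ i ∈ Finset.range q, |Real.cos (Real.pi * (α + i * β))| ≤ 17 / 24 * q := by
  have hzero : ∑ i ∈ Finset.range q, Real.cos (2 * Real.pi * (α + i * β)) = 0 := by
    have hc : ∑ i ∈ Finset.range q, Complex.exp (2 * Real.pi * Complex.I * (α + i * β)) = 0 := by
      have h1 : ∀ i ∈ Finset.range q, Complex.exp (2 * Real.pi * Complex.I * (α + i * β)) =
          Complex.exp (2 * Real.pi * Complex.I * α) * (Complex.exp (2 * Real.pi * Complex.I * β)) ^ i := by
        intro i _
        rw [← Complex.exp_nat_mul, ← Complex.exp_add]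
        congr 1
        ring
      rw [Finset.sum_congr rfl h1, ← Finset.mul_sum]
      have hne : Complex.exp (2 * Real.pi * Complex.I * β) ≠ 1 := by
        intro h
        rw [Complex.exp_eq_one_iff] at h
        obtain ⟨n, hn⟩ := h
        apply hβ n
        have h2 : (2 * Real.pi * Complex.I : ℂ) ≠ 0 := by
          simp [Real.pi_ne_zero]
        have h3 : (β : ℂ) = n := by
          have : (2 * Real.pi * Complex.I : ℂ) * β = (2 * Real.pi * Complex.I) * n := by
            rw [hn]; ring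
          exact mul_left_cancel₀ h2 this
        exact_mod_cast h3
      rw [geom_sum_eq hne]
      obtain ⟨z, hz⟩ := hqβ
      have h4 : Complex.exp (2 * Real.pi * Complex.I * β) ^ q = 1 := by
        rw [← Complex.exp_nat_mul, Complex.exp_eq_one_iff]
        refine ⟨z, ?_⟩
        have : (q : ℂ) * β = z := by exact_mod_cast hz
        calc (q : ℂ) * (2 * Real.pi * Complex.I * β) = (q * β) * (2 * Real.pi * Complex.I) := by ring
          _ = _ := by rw [this]
      rw [h4]
      simp
    have h5 := congrArg Complex.re hc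
    rw [Complex.re_sum] at h5
    rw [Complex.zero_re] at h5
    rw [← h5]
    refine Finset.sum_congr rfl fun i _ => ?_
    have e : (2 * Real.pi * Complex.I * (α + i * β) : ℂ) = ((2 * Real.pi * (α + i * β) : ℝ) : ℂ) * Complex.I := by
      push_cast
      ring
    rw [e, Complex.exp_ofReal_mul_I_re]
  have hpt : ∀ i ∈ Finset.range q, |Real.cos (Real.pi * (α + i * β))| ≤
      17 / 24 + 1 / 3 * Real.cos (2 * Real.pi * (α + i * β)) := by
    intro i _
    have h1 : Real.cos (2 * Real.pi * (α + i * β)) = 2 * Real.cos (Real.pi * (α + i * β)) ^ 2 - 1 := by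
      rw [← Real.cos_two_mul]
      congr 1
      ring
    rw [h1]
    have h2 := sq_abs (Real.cos (Real.pi * (α + i * β)))
    nlinarith [sq_nonneg (|Real.cos (Real.pi * (α + i * β))| - 3 / 4)]
  calc ∑ i ∈ Finset.range q, |Real.cos (Real.pi * (α + i * β))|
      ≤ ∑ i ∈ Finset.range q, (17 / 24 + 1 / 3 * Real.cos (2 * Real.pi * (α + i * β))) := Finset.sum_le_sum hpt
    _ = 17 / 24 * q := by
        rw [Finset.sum_add_distrib, ← Finset.mul_sum, hzero]
        simp
        ring

end Pool.Agent.H810R3.Spa
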