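import Pool.Agent.H810R3.Spa.Arith

set_option autoImplicit false

/-! The mean over `m` of products of cosines. -/

namespace Pool.Agent.H810R3.Spa

/-- The factor belonging to the position `p`. -/
noncomputable def gg (a p : ℕ) (h v A : ℤ) : ℝ :=
  |Real.cos (Real.pi * (h * (A - v) / (a : ℝ) ^ p))|

theorem gg_nonneg (a p : ℕ) (h v A : ℤ) : 0 ≤ gg a p h v A := abs_nonneg _

theorem abs_cos_shift (x : ℝ) (z : ℤ) : |Real.cos (Real.pi * (x + z))| = |Real.cos (Real.pi * x)| := by
  have e : Real.pi * (x + z) = Real.pi * x + z * Real.pi := by ring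
  rw [e, Real.cos_add_int_mul_pi, abs_mul, abs_neg_one_zpow, one_mul]

theorem gg_congr {a p : ℕ} (ha : 0 < a) (h v : ℤ) {A B : ℤ} (hAB : (a : ℤ) ^ p ∣ A - B) :
    gg a p h v A = gg a p h v B := by
  obtain ⟨z, hz⟩ := hAB
  unfold gg
  have ha' : ((a : ℝ) ^ p) ≠ 0 := by positivity
  have e : (h : ℝ) * (A - v) / (a : ℝ) ^ p = h * (B - v) / (a : ℝ) ^ p + ((h * z : ℤ) : ℝ) := by
    have hA : (A : ℝ) = B + (a : ℝ) ^ p * z := by
      have : A = B + (a : ℤ) ^ p * z := by linarith
      exact_mod_cast this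
    rw [hA]
    push_cast
    field_simp
    ring
  rw [e, abs_cos_shift]

/-- The mean of the product over well separated positions. -/
theorem prod_mean {a b : ℕ} (ha : 2 ≤ a) (hab : Nat.Coprime a b) {t E : ℕ} (ht : 0 < t)
    (hpow : ∀ j : ℕ, ∃ w : ℤ, IsCoprime w (a : ℤ) ∧ (b : ℤ) ^ (t * a ^ j) = 1 + E * a ^ j * w)
    (hE : 0 < E) {h : ℤ} (hh : h ≠ 0) {c : ℕ} (hc : (|h| * E : ℤ) < a ^ c) (v : ℤ) (p : ℕ → ℕ)
    (hp0 : 2 * c ≤ p 0) (hp : ∀ j, p j + c ≤ p (j + 1)) (N : ℕ) :
    ∀ J : ℕ, (∀ j < J, p j ≤ N) →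
      ∑ m ∈ Finset.range (t * a ^ N), ∏ j ∈ Finset.range J, gg a (p j) h v ((b : ℤ) ^ m) ≤
        (17 / 24) ^ J * ((t * a ^ N : ℕ) : ℝ) := by
  have ha0 : 0 < a := by omega
  have hpm : ∀ j, p 0 + j * c ≤ p j := by
    intro j
    induction j with
    | zero => simp
    | succ j ih =>
      have := hp j
      calc p 0 + (j + 1) * c = (p 0 + j * c) + c := by ring
        _ ≤ p (j + 1) := by omega
  have hmono : ∀ i j, i < j → p i + c ≤ p j := by
    intro i j hij
    induction j with
    | zero => omega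
    | succ j ih =>
      rcases Nat.lt_succ_iff_lt_or_eq.1 hij with h1 | h1
      · have := ih h1
        have := hp j
        omega
      · rw [← h1]; exact hp i
  -- periodicity
  have hper : ∀ k j : ℕ, p j ≤ k → ∀ m : ℕ, gg a (p j) h v ((b : ℤ) ^ (m + t * a ^ k)) =
      gg a (p j) h v ((b : ℤ) ^ m) := by
    intro k j hjk m
    apply gg_congr ha0
    obtain ⟨w, _, hw⟩ := hpow k
    rw [pow_add, hw]
    have e : (b : ℤ) ^ m * (1 + E * a ^ k * w) - b ^ m = a ^ k * (b ^ m * E * w) := by ring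
    rw [e]
    exact (pow_dvd_pow _ hjk).mul_right _
  intro J
  induction J with
  | zero => intro _; simp
  | succ J ih =>
    intro hJ
    have ih' := ih fun j hj => hJ j (by omega)
    set P : ℕ := t * a ^ N with hP
    have hpJ : 2 * c ≤ p J := by
      have := hpm J
      nlinarith [Nat.zero_le (J * c)]
    set s : ℕ := t * a ^ (p J - c) with hs
    set q : ℕ := a ^ c with hq
    have hq0 : 0 < q := by positivity
    set G : ℕ → ℝ := fun m => ∏ j ∈ Finset.range J, gg a (p j) h v ((b : ℤ) ^ m) with hG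
    have hG0 : ∀ m, 0 ≤ G m := fun m => Finset.prod_nonneg fun j _ => gg_nonneg _ _ _ _ _
    have hGs : ∀ i m, G (m + i * s) = G m := by
      intro i
      induction i with
      | zero => intro m; simp
      | succ i ihi =>
        intro m
        have e : m + (i + 1) * s = (m + i * s) + t * a ^ (p J - c) := by rw [hs]; ring
        rw [e, ← ihi m]
        refine Finset.prod_congr rfl fun j hj => ?_
        rw [Finset.mem_range] at hj
        exact hper _ j (by have := hmono j J hj; omega) _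
    have hF : ∀ m, G (m + P) * gg a (p J) h v ((b : ℤ) ^ (m + P)) = G m * gg a (p J) h v ((b : ℤ) ^ m) := by
      intro m
      rw [hP, hper N J (hJ J (by omega))]
      congr 1
      refine Finset.prod_congr rfl fun j hj => ?_
      rw [Finset.mem_range] at hj
      exact hper _ j (hJ j (by omega)) _
    have hrot : ∀ m, ∑ i ∈ Finset.range q, gg a (p J) h v ((b : ℤ) ^ (m + i * s)) ≤ 17 / 24 * q := by
      intro m
      obtain ⟨w, hw1, hw2⟩ := hpow (p J - c)
      have haR : (0 : ℝ) < a := by exact_mod_cast ha0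
      have hβ := cos_mean q hq0 (h * ((b : ℤ) ^ m - v) / (a : ℝ) ^ (p J))
        (((h * (b : ℤ) ^ m * E * w : ℤ) : ℝ) / (a : ℝ) ^ c) (by
          intro z hz
          rw [div_eq_iff (by positivity)] at hz
          have h1 : h * (b : ℤ) ^ m * E * w = z * (a : ℤ) ^ c := by exact_mod_cast hz
          have h2 : (a : ℤ) ^ c ∣ (h * E) * ((b : ℤ) ^ m * w) := ⟨z, by rw [mul_comm ((a : ℤ) ^ c) z, ← h1]; ring⟩
          have h3 : IsCoprime ((a : ℤ) ^ c) ((b : ℤ) ^ m * w) := by
            apply IsCoprime.pow_left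
            apply IsCoprime.mul_right
            · exact IsCoprime.pow_right (Nat.isCoprime_iff_coprime.2 hab)
            · exact hw1.symm
          have h4 : (a : ℤ) ^ c ∣ h * E := h3.dvd_of_dvd_mul_right h2
          have h5 : h * (E : ℤ) ≠ 0 := mul_ne_zero hh (by exact_mod_cast hE.ne')
          have h6 := Int.le_of_dvd (abs_pos.2 h5) ((dvd_abs _ _).2 h4)
          rw [abs_mul, Nat.abs_cast] at h6
          exact absurd hc (not_lt.2 h6))
        ⟨h * (b : ℤ) ^ m * E * w, by rw [hq]; push_cast; field_simp⟩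
      refine le_trans (le_of_eq ?_) hβ
      refine Finset.sum_congr rfl fun i _ => ?_
      obtain ⟨r, hr⟩ := one_add_pow (E * a ^ (p J - c) * w) i
      have e1 : (b : ℤ) ^ (m + i * s) = b ^ m * (1 + i * (E * a ^ (p J - c) * w) + (E * a ^ (p J - c) * w) ^ 2 * r) := by
        rw [pow_add, mul_comm i s, pow_mul, hs, hw2, hr]
      unfold gg
      rw [← abs_cos_shift _ (-(h * b ^ m * E ^ 2 * a ^ (p J - 2 * c) * w ^ 2 * r))]
      congr 3
      rw [e1]
      have e2 : (a : ℝ) ^ (p J) = a ^ (p J - c) * a ^ c := by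
        rw [← pow_add]
        congr 1
        omega
      have e3 : (a : ℝ) ^ (p J - c) = a ^ (p J - 2 * c) * a ^ c := by
        rw [← pow_add]
        congr 1
        omega
      push_cast
      rw [e2, e3]
      field_simp
      ring
    have hkey : (q : ℝ) * ∑ m ∈ Finset.range P, G m * gg a (p J) h v ((b : ℤ) ^ m) ≤
        q * (17 / 24 * ∑ m ∈ Finset.range P, G m) := by
      calc (q : ℝ) * ∑ m ∈ Finset.range P, G m * gg a (p J) h v ((b : ℤ) ^ m)
          = ∑ i ∈ Finset.range q, ∑ m ∈ Finset.range P, G (m + i * s) * gg a (p J) h v ((b : ℤ) ^ (m + i * s)) := by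
            rw [Finset.sum_congr rfl fun i _ => sum_shift (F := fun m => G m * gg a (p J) h v ((b : ℤ) ^ m)) hF (i * s)]
            rw [Finset.sum_const, Finset.card_range, nsmul_eq_mul]
        _ = ∑ m ∈ Finset.range P, G m * ∑ i ∈ Finset.range q, gg a (p J) h v ((b : ℤ) ^ (m + i * s)) := by
            rw [Finset.sum_comm]
            refine Finset.sum_congr rfl fun m _ => ?_
            rw [Finset.mul_sum]
            refine Finset.sum_congr rfl fun i _ => ?_
            rw [hGs]
        _ ≤ ∑ m ∈ Finset.range P, G m * (17 / 24 * q) :=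
            Finset.sum_le_sum fun m _ => mul_le_mul_of_nonneg_left (hrot m) (hG0 m)
        _ = _ := by
            rw [← Finset.sum_mul]
            ring
    have hkey' := le_of_mul_le_mul_left hkey (by exact_mod_cast hq0)
    calc ∑ m ∈ Finset.range P, ∏ j ∈ Finset.range (J + 1), gg a (p j) h v ((b : ℤ) ^ m)
        = ∑ m ∈ Finset.range P, G m * gg a (p J) h v ((b : ℤ) ^ m) := by
          refine Finset.sum_congr rfl fun m _ => ?_
          rw [Finset.prod_range_succ]
      _ ≤ 17 / 24 * ∑ m ∈ Finset.range P, G m := hkey'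
      _ ≤ 17 / 24 * ((17 / 24) ^ J * (P : ℝ)) := mul_le_mul_of_nonneg_left ih' (by norm_num)
      _ = _ := by ring

end Pool.Agent.H810R3.Spa
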