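import Pool.Agent.H810R3.Spa.Prob

set_option autoImplicit false

/-! Almost sure density of the orbits. -/

open MeasureTheory ProbabilityTheory Filter Topology

namespace Pool.Agent.H810R3.Spa

variable {Ω : Type*} [MeasurableSpace Ω] {P : Measure Ω} [IsProbabilityMeasure P] {ε : ℕ → Ω → ℝ}

/-- Almost surely the orbit comes near a given point. -/
theorem near (h : Fair P ε) {a b : ℕ} (ha : 2 ≤ a) (hb : 2 ≤ b) (hab : Nat.Coprime a b) {n : ℕ → ℕ}
    (hn : StrictMono n) (θ η : ℝ) (hη0 : 0 ≤ η) (hη : η < 1) :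
    ∀ᵐ ω ∂P, ∃ m : ℕ, η < (1 + Real.cos (2 * Real.pi * ((b : ℝ) ^ m * X a n ε ω - θ))) / 2 := by
  obtain ⟨L, δ, hδ, hW⟩ := weyl η hη0 hη
  obtain ⟨t, E, ht, hE, hpow⟩ := powers a b ha hb hab
  obtain ⟨c, hc⟩ : ∃ c : ℕ, L * E < a ^ c := ⟨L * E, Nat.lt_pow_self (by omega)⟩
  have hXm := X_measurable h ha hn
  set U : Set Ω := {ω | ¬ ∃ m : ℕ, η < (1 + Real.cos (2 * Real.pi * ((b : ℝ) ^ m * X a n ε ω - θ))) / 2} with hU
  have hbound : ∀ J : ℕ, P.real U ≤ L * ((17 / 24) ^ J / δ ^ 2) := by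
    intro J
    set M : ℕ := t * a ^ n (2 * c + (c + 1) * J) with hM
    have hM0 : 0 < M := by positivity
    have hMR : (0 : ℝ) < M := by exact_mod_cast hM0
    set B : ℕ → Set Ω := fun l => {ω | (δ * M) ^ 2 ≤
      ‖∑ m ∈ Finset.range M, ee (l * ((b : ℝ) ^ m * X a n ε ω))‖ ^ 2} with hB
    have hsub : U ⊆ ⋃ l ∈ Finset.Icc 1 L, B l := by
      intro ω hω
      by_contra hcon
      simp only [Set.mem_iUnion, not_exists] at hcon
      obtain ⟨m, _, hm⟩ := hW θ M hM0 (fun m => (b : ℝ) ^ m * X a n ε ω) (by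
        intro l hl1 hl2
        have h1 := hcon l (Finset.mem_Icc.2 ⟨hl1, hl2⟩)
        have h2 : ¬ ((δ * M) ^ 2 ≤ ‖∑ m ∈ Finset.range M, ee (l * ((b : ℝ) ^ m * X a n ε ω))‖ ^ 2) := h1
        rw [not_le] at h2
        exact lt_of_pow_lt_pow_left₀ 2 (by positivity) h2)
      exact hω ⟨m, hm⟩
    have hBl : ∀ l ∈ Finset.Icc 1 L, P.real (B l) ≤ (17 / 24) ^ J / δ ^ 2 := by
      intro l hl
      rw [Finset.mem_Icc] at hl
      have hlE : l * E < a ^ c := lt_of_le_of_lt (Nat.mul_le_mul_right _ hl.2) hc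
      have h1 := second h ha hab hn ht hpow hE hl.1 hlE J
      rw [← hM] at h1
      have hfm : Measurable (fun ω => ‖∑ m ∈ Finset.range M, ee (l * ((b : ℝ) ^ m * X a n ε ω))‖ ^ 2) := by
        refine Measurable.pow_const (Measurable.norm ?_) 2
        refine Finset.measurable_fun_sum _ fun m _ => ?_
        exact ee_continuous.measurable.comp ((hXm.const_mul _).const_mul _)
      have hfi : Integrable (fun ω => ‖∑ m ∈ Finset.range M, ee (l * ((b : ℝ) ^ m * X a n ε ω))‖ ^ 2) P := by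
        refine ⟨hfm.aestronglyMeasurable, ?_⟩
        refine HasFiniteIntegral.of_bounded (C := (M : ℝ) ^ 2) (Eventually.of_forall fun ω => ?_)
        rw [Real.norm_of_nonneg (by positivity)]
        apply pow_le_pow_left₀ (norm_nonneg _)
        refine (norm_sum_le _ _).trans (le_of_eq ?_)
        rw [Finset.sum_congr rfl fun m _ => ee_norm _]
        simp
      have h2 := mul_meas_ge_le_integral_of_nonneg (μ := P)
        (Eventually.of_forall fun ω => by positivity) hfi ((δ * M) ^ 2)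
      have h3 := h2.trans h1
      have h4 : δ ^ 2 * P.real (B l) ≤ (17 / 24) ^ J := by
        have h5 : (M : ℝ) ^ 2 * (δ ^ 2 * P.real (B l)) ≤ M ^ 2 * (17 / 24) ^ J := by
          calc (M : ℝ) ^ 2 * (δ ^ 2 * P.real (B l)) = (δ * M) ^ 2 * P.real (B l) := by ring
            _ ≤ (17 / 24) ^ J * (M : ℝ) ^ 2 := h3
            _ = _ := by ring
        exact le_of_mul_le_mul_left h5 (by positivity)
      rw [le_div_iff₀ (by positivity)]
      linarith
    calc P.real U ≤ P.real (⋃ l ∈ Finset.Icc 1 L, B l) := measureReal_mono hsub (measure_ne_top _ _)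
      _ ≤ ∑ l ∈ Finset.Icc 1 L, P.real (B l) := measureReal_biUnion_finset_le _ _
      _ ≤ ∑ _l ∈ Finset.Icc 1 L, (17 / 24 : ℝ) ^ J / δ ^ 2 := Finset.sum_le_sum hBl
      _ = L * ((17 / 24) ^ J / δ ^ 2) := by simp
  have hlim : Tendsto (fun J : ℕ => (L : ℝ) * ((17 / 24) ^ J / δ ^ 2)) atTop (𝓝 0) := by
    have h1 := (tendsto_pow_atTop_nhds_zero_of_lt_one (r := (17 / 24 : ℝ)) (by norm_num) (by norm_num)).div_const
      (δ ^ 2)
    have h2 := h1.const_mul (L : ℝ)
    simpa using h2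
  have hU0 : P.real U ≤ 0 := ge_of_tendsto' hlim hbound
  have hU1 : P U = 0 := by
    have h1 : P.real U = 0 := le_antisymm hU0 measureReal_nonneg
    rwa [measureReal_eq_zero_iff] at h1
  exact hU1

/-- A point whose orbit comes near every point has a dense orbit. -/
theorem dense_of {b : ℕ} {x : ℝ} (hx : ∀ (θ : ℚ) (k : ℕ), ∃ m : ℕ,
      (1 + Real.cos (2 * Real.pi * (1 / ((k : ℝ) + 3)))) / 2 <
        (1 + Real.cos (2 * Real.pi * ((b : ℝ) ^ m * x - θ))) / 2) :
    closure (Set.range (fun m : ℕ => Int.fract ((b : ℝ) ^ m * x))) = Set.Icc 0 1 := by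
  apply Set.Subset.antisymm
  · apply closure_minimal _ isClosed_Icc
    rintro _ ⟨m, rfl⟩
    exact ⟨Int.fract_nonneg _, (Int.fract_lt_one _).le⟩
  · rw [← closure_Ioo (zero_ne_one' ℝ)]
    apply closure_minimal _ isClosed_closure
    intro y hy
    rw [Metric.mem_closure_iff]
    intro r hr
    obtain ⟨θ, hθ1, hθ2⟩ := exists_rat_btwn (show y < min 1 (y + r / 2) from lt_min hy.2 (by linarith))
    have hθ3 : (θ : ℝ) < 1 := lt_of_lt_of_le hθ2 (min_le_left _ _)
    have hθ4 : (θ : ℝ) < y + r / 2 := lt_of_lt_of_le hθ2 (min_le_right _ _)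
    have hθ0 : 0 < (θ : ℝ) := lt_trans hy.1 hθ1
    obtain ⟨k, hk⟩ := exists_nat_one_div_lt (show 0 < min (min (θ : ℝ) (1 - θ)) (r / 2) from
      lt_min (lt_min hθ0 (by linarith)) (by linarith))
    have hk3 : (1 : ℝ) / ((k : ℝ) + 3) < min (min (θ : ℝ) (1 - θ)) (r / 2) := by
      refine lt_of_le_of_lt ?_ hk
      exact one_div_le_one_div_of_le (by positivity) (by linarith)
    set ρ : ℝ := 1 / ((k : ℝ) + 3) with hρ
    have hρ0 : 0 < ρ := by positivity
    have hρ1 : ρ < θ := lt_of_lt_of_le hk3 ((min_le_left _ _).trans (min_le_left _ _))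
    have hρ2 : ρ < 1 - θ := lt_of_lt_of_le hk3 ((min_le_left _ _).trans (min_le_right _ _))
    have hρ3 : ρ < r / 2 := lt_of_lt_of_le hk3 (min_le_right _ _)
    obtain ⟨m, hm⟩ := hx θ k
    set z : ℝ := (b : ℝ) ^ m * x with hz
    set s : ℝ := z - θ - round (z - θ) with hs
    have hs1 : |s| ≤ 1 / 2 := abs_sub_round _
    have hcos : Real.cos (2 * Real.pi * (z - θ)) = Real.cos (2 * Real.pi * |s|) := by
      have e1 : Real.cos (2 * Real.pi * |s|) = Real.cos (2 * Real.pi * s) := by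
        rcases abs_choice s with h1 | h1 <;> rw [h1]
        rw [mul_neg, Real.cos_neg]
      rw [e1, hs]
      have e2 : 2 * Real.pi * (z - θ - round (z - θ)) = 2 * Real.pi * (z - θ) - (round (z - θ) : ℤ) * (2 * Real.pi) := by
        ring
      rw [e2, Real.cos_sub_int_mul_two_pi]
    have hsρ : |s| < ρ := by
      by_contra hcon
      push Not at hcon
      have h1 : Real.cos (2 * Real.pi * |s|) ≤ Real.cos (2 * Real.pi * ρ) := by
        apply Real.cos_le_cos_of_nonneg_of_le_pi (by positivity)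
        · nlinarith [Real.pi_pos]
        · exact mul_le_mul_of_nonneg_left hcon (by positivity)
      rw [hcos] at hm
      linarith
    have hs2 := abs_lt.1 hsρ
    refine ⟨Int.fract z, ⟨m, rfl⟩, ?_⟩
    have hfr : Int.fract z = θ + s := by
      rw [Int.fract_eq_iff]
      refine ⟨by linarith [hs2.1], by linarith [hs2.2], round (z - θ), ?_⟩
      rw [hs]
      ring
    rw [hfr, Real.dist_eq, abs_lt]
    constructor <;> linarith [hs2.1, hs2.2]

end Pool.Agent.H810R3.Spa
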