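import Mathlib

set_option autoImplicit false

/-! A quantitative form of the Weyl criterion for density. -/

namespace Pool.Agent.H810R3.Spa

open Complex

/-- The exponential. -/
noncomputable def ee (x : ℝ) : ℂ := Complex.exp (2 * Real.pi * Complex.I * x)

theorem ee_add (x y : ℝ) : ee (x + y) = ee x * ee y := by
  unfold ee
  rw [← Complex.exp_add]
  congr 1
  push_cast
  ring

theorem ee_norm (x : ℝ) : ‖ee x‖ = 1 := by
  unfold ee
  have : (2 * Real.pi * Complex.I * x : ℂ) = ((2 * Real.pi * x : ℝ) : ℂ) * Complex.I := by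
    push_cast; ring
  rw [this, Complex.norm_exp_ofReal_mul_I]

theorem ee_conj (x : ℝ) : (starRingEnd ℂ) (ee x) = ee (-x) := by
  unfold ee
  rw [← Complex.exp_conj]
  congr 1
  rw [map_mul, map_mul, map_mul, Complex.conj_I, Complex.conj_ofReal, Complex.conj_ofReal, Complex.conj_ofNat]
  push_cast
  ring

theorem ee_nat (n : ℕ) (x : ℝ) : ee x ^ n = ee (n * x) := by
  unfold ee
  rw [← Complex.exp_nat_mul]
  congr 1
  push_cast
  ring

theorem ee_re (x : ℝ) : (ee x).re = Real.cos (2 * Real.pi * x) := by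
  unfold ee
  have : (2 * Real.pi * Complex.I * x : ℂ) = ((2 * Real.pi * x : ℝ) : ℂ) * Complex.I := by
    push_cast; ring
  rw [this, Complex.exp_ofReal_mul_I_re]

theorem half_norm (x : ℝ) : ‖(1 + ee x) / 2‖ ^ 2 = (1 + Real.cos (2 * Real.pi * x)) / 2 := by
  have h1 : ‖ee x‖ ^ 2 = 1 := by rw [ee_norm, one_pow]
  rw [← Complex.normSq_eq_norm_sq] at h1 ⊢
  rw [Complex.normSq_apply] at h1
  rw [Complex.normSq_apply]
  have e1 : ((1 + ee x) / 2).re = (1 + (ee x).re) / 2 := by
    simp
  have e2 : ((1 + ee x) / 2).im = (ee x).im / 2 := by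
    simp
  rw [e1, e2, ← ee_re]
  nlinarith

/-- If the exponential sums of frequencies `1, …, L` are small then some point is near `θ`. -/
theorem weyl (η : ℝ) (hη0 : 0 ≤ η) (hη : η < 1) : ∃ (L : ℕ) (δ : ℝ), 0 < δ ∧ ∀ (θ : ℝ) (P : ℕ), 0 < P →
    ∀ y : ℕ → ℝ, (∀ h : ℕ, 1 ≤ h → h ≤ L → ‖∑ m ∈ Finset.range P, ee (h * y m)‖ < δ * P) →
      ∃ m < P, η < (1 + Real.cos (2 * Real.pi * (y m - θ))) / 2 := by
  have hlim : Filter.Tendsto (fun L : ℕ => ((L : ℝ) + 1) * η ^ L) Filter.atTop (nhds 0) := by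
    have h1 := tendsto_self_mul_const_pow_of_lt_one hη0 hη
    have h2 := tendsto_pow_atTop_nhds_zero_of_lt_one hη0 hη
    have h3 := h1.add h2
    rw [add_zero] at h3
    refine h3.congr fun L => ?_
    ring
  obtain ⟨L, hL⟩ := (hlim.eventually_lt_const (show (0 : ℝ) < 1 / 2 by norm_num)).exists
  have hL0 : (0 : ℝ) < (L : ℝ) + 1 := by positivity
  refine ⟨L, 1 / (2 * (L + 1)), by positivity, ?_⟩
  intro θ P hP y hy
  by_contra hcon
  push Not at hcon
  have hP0 : (0 : ℝ) < P := by exact_mod_cast hP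
  set z : ℕ → ℂ := fun m => ee (y m - θ) with hz
  set C : ℕ → ℝ := fun i => (L.choose i : ℝ) with hC
  have hC0 : ∀ i, 0 ≤ C i := fun i => Nat.cast_nonneg _
  have hCsum : ∑ i ∈ Finset.range (L + 1), C i = 2 ^ L := by
    have := Nat.sum_range_choose L
    simp only [hC]
    exact_mod_cast this
  -- upper bound
  have hup : ∑ m ∈ Finset.range P, (‖(1 + z m) / 2‖ ^ 2) ^ L ≤ P * η ^ L := by
    calc ∑ m ∈ Finset.range P, (‖(1 + z m) / 2‖ ^ 2) ^ L ≤ ∑ _m ∈ Finset.range P, η ^ L := by
          refine Finset.sum_le_sum fun m hm => ?_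
          rw [Finset.mem_range] at hm
          apply pow_le_pow_left₀ (by positivity)
          rw [hz]
          simp only
          rw [half_norm]
          exact hcon m hm
      _ = P * η ^ L := by simp
  -- expansion
  have hexp : ∀ m, ((‖(1 + z m) / 2‖ ^ 2 : ℝ) : ℂ) ^ L =
      ∑ i ∈ Finset.range (L + 1), ∑ j ∈ Finset.range (L + 1),
        ((C i * C j / 4 ^ L : ℝ) : ℂ) * (z m ^ i * (starRingEnd ℂ) (z m) ^ j) := by
    intro m
    have h1 : ((‖(1 + z m) / 2‖ ^ 2 : ℝ) : ℂ) = ((1 + z m) / 2) * (starRingEnd ℂ) ((1 + z m) / 2) := by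
      rw [Complex.mul_conj, Complex.normSq_eq_norm_sq]
    have h2 : ∀ w : ℂ, (1 + w) ^ L = ∑ i ∈ Finset.range (L + 1), (C i : ℂ) * w ^ i := by
      intro w
      rw [add_comm, add_pow]
      refine Finset.sum_congr rfl fun i _ => ?_
      simp only [hC, one_pow, mul_one]
      push_cast
      ring
    rw [h1, mul_pow, div_pow, ← map_pow, div_pow, map_div₀, map_pow, map_pow, map_add, map_one, h2, h2]
    have h3 : (starRingEnd ℂ) (2 : ℂ) = 2 := Complex.conj_ofNat 2
    rw [h3, div_mul_div_comm, Finset.sum_mul_sum, ← mul_pow, Finset.sum_div]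
    refine Finset.sum_congr rfl fun i _ => ?_
    rw [Finset.sum_div]
    refine Finset.sum_congr rfl fun j _ => ?_
    push_cast
    norm_num
    ring
  have hterm : ∀ i j : ℕ, ∀ m, z m ^ i * (starRingEnd ℂ) (z m) ^ j =
      ee (((i : ℝ) - j) * (y m - θ)) := by
    intro i j m
    rw [hz]
    simp only
    rw [ee_conj, ee_nat, ee_nat, ← ee_add]
    congr 1
    ring
  have hoff : ∀ i ∈ Finset.range (L + 1), ∀ j ∈ Finset.range (L + 1), i ≠ j →
      ‖∑ m ∈ Finset.range P, ee (((i : ℝ) - j) * (y m - θ))‖ ≤ 1 / (2 * (L + 1)) * P := by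
    intro i hi j hj hij
    rw [Finset.mem_range] at hi hj
    rcases lt_or_gt_of_ne hij with h1 | h1
    · have e : ∀ m, ee (((i : ℝ) - j) * (y m - θ)) = ee (((j : ℝ) - i) * θ) * (starRingEnd ℂ) (ee ((j - i : ℕ) * y m)) := by
        intro m
        rw [ee_conj, ← ee_add]
        congr 1
        rw [Nat.cast_sub h1.le]
        ring
      rw [Finset.sum_congr rfl fun m _ => e m, ← Finset.mul_sum, norm_mul, ee_norm, one_mul, ← map_sum,
        RCLike.norm_conj]
      exact (hy (j - i) (by omega) (by omega)).le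
    · have e : ∀ m, ee (((i : ℝ) - j) * (y m - θ)) = ee (((j : ℝ) - i) * θ) * ee ((i - j : ℕ) * y m) := by
        intro m
        rw [← ee_add]
        congr 1
        rw [Nat.cast_sub h1.le]
        ring
      rw [Finset.sum_congr rfl fun m _ => e m, ← Finset.mul_sum, norm_mul, ee_norm, one_mul]
      exact (hy (i - j) (by omega) (by omega)).le
  -- the sum
  have hre : ∀ i ∈ Finset.range (L + 1), ∀ j ∈ Finset.range (L + 1),
      (if i = j then (P : ℝ) else 0) - 1 / (2 * (L + 1)) * P ≤
        (∑ m ∈ Finset.range P, ee (((i : ℝ) - j) * (y m - θ))).re := by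
    intro i hi j hj
    split_ifs with h1
    · rw [h1]
      have : ∀ m, ee (((j : ℝ) - j) * (y m - θ)) = 1 := by
        intro m
        rw [sub_self, zero_mul]
        unfold ee
        simp
      rw [Finset.sum_congr rfl fun m _ => this m]
      simp only [Finset.sum_const, Finset.card_range, nsmul_eq_mul, mul_one, Complex.natCast_re]
      have : 0 ≤ 1 / (2 * ((L : ℝ) + 1)) * P := by positivity
      linarith
    · have h2 := hoff i hi j hj h1
      have h3 := Complex.abs_re_le_norm (∑ m ∈ Finset.range P, ee (((i : ℝ) - j) * (y m - θ)))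
      have h4 := neg_abs_le (∑ m ∈ Finset.range P, ee (((i : ℝ) - j) * (y m - θ))).re
      linarith
  have hsum : ∑ m ∈ Finset.range P, (‖(1 + z m) / 2‖ ^ 2) ^ L =
      ∑ i ∈ Finset.range (L + 1), ∑ j ∈ Finset.range (L + 1),
        (C i * C j / 4 ^ L) * (∑ m ∈ Finset.range P, ee (((i : ℝ) - j) * (y m - θ))).re := by
    have h1 : (∑ m ∈ Finset.range P, (‖(1 + z m) / 2‖ ^ 2) ^ L : ℝ) =
        (∑ m ∈ Finset.range P, (((‖(1 + z m) / 2‖ ^ 2 : ℝ) : ℂ)) ^ L).re := by
      rw [Complex.re_sum]
      refine Finset.sum_congr rfl fun m _ => ?_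
      rw [← Complex.ofReal_pow, Complex.ofReal_re]
    rw [h1, Finset.sum_congr rfl fun m _ => hexp m, Finset.sum_comm, Complex.re_sum]
    refine Finset.sum_congr rfl fun i _ => ?_
    rw [Finset.sum_comm, Complex.re_sum]
    refine Finset.sum_congr rfl fun j _ => ?_
    rw [← Finset.mul_sum, Complex.re_ofReal_mul]
    congr 2
    exact Finset.sum_congr rfl fun m _ => hterm i j m
  have h4L : (0 : ℝ) < 4 ^ L := by positivity
  have hlow : (P : ℝ) / (L + 1) - 1 / (2 * (L + 1)) * P ≤
      ∑ m ∈ Finset.range P, (‖(1 + z m) / 2‖ ^ 2) ^ L := by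
    rw [hsum]
    calc (P : ℝ) / (L + 1) - 1 / (2 * (L + 1)) * P
        ≤ ∑ i ∈ Finset.range (L + 1), ∑ j ∈ Finset.range (L + 1),
          (C i * C j / 4 ^ L) * ((if i = j then (P : ℝ) else 0) - 1 / (2 * (L + 1)) * P) := by
          have e1 : ∑ i ∈ Finset.range (L + 1), ∑ j ∈ Finset.range (L + 1),
              (C i * C j / 4 ^ L) * ((if i = j then (P : ℝ) else 0) - 1 / (2 * (L + 1)) * P) =
              (∑ i ∈ Finset.range (L + 1), C i ^ 2) / 4 ^ L * P -
              (∑ i ∈ Finset.range (L + 1), C i) * (∑ j ∈ Finset.range (L + 1), C j) / 4 ^ L *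
                (1 / (2 * (L + 1)) * P) := by
            rw [Finset.sum_mul_sum, Finset.sum_div, Finset.sum_div, Finset.sum_mul, Finset.sum_mul,
              ← Finset.sum_sub_distrib]
            refine Finset.sum_congr rfl fun i hi => ?_
            rw [Finset.sum_div, Finset.sum_mul]
            have e2 : ∀ j ∈ Finset.range (L + 1), (C i * C j / 4 ^ L) *
                ((if i = j then (P : ℝ) else 0) - 1 / (2 * (L + 1)) * P) =
                (if i = j then C i * C j / 4 ^ L * P else 0) - C i * C j / 4 ^ L * (1 / (2 * (L + 1)) * P) := by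
              intro j _
              split_ifs <;> ring
            rw [Finset.sum_congr rfl e2, Finset.sum_sub_distrib, Finset.sum_ite_eq, if_pos hi]
            ring
          rw [e1, hCsum]
          have e3 : (2 : ℝ) ^ L * 2 ^ L / 4 ^ L = 1 := by
            rw [← mul_pow]
            norm_num
          rw [e3, one_mul]
          have h5 : (1 : ℝ) / (L + 1) ≤ (∑ i ∈ Finset.range (L + 1), C i ^ 2) / 4 ^ L := by
            have h6 := sq_sum_le_card_mul_sum_sq (s := Finset.range (L + 1)) (f := C)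
            rw [hCsum, Finset.card_range] at h6
            rw [div_le_div_iff₀ hL0 h4L, one_mul]
            have h7 : ((2 : ℝ) ^ L) ^ 2 = 4 ^ L := by
              rw [← pow_mul, mul_comm L 2, pow_mul]
              norm_num
            rw [h7] at h6
            push_cast at h6
            linarith
          have h8 : (P : ℝ) / (L + 1) = 1 / (L + 1) * P := by ring
          rw [h8]
          have := mul_le_mul_of_nonneg_right h5 hP0.le
          linarith
      _ ≤ _ := by
          refine Finset.sum_le_sum fun i hi => Finset.sum_le_sum fun j hj => ?_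
          exact mul_le_mul_of_nonneg_left (hre i hi j hj)
            (div_nonneg (mul_nonneg (hC0 i) (hC0 j)) h4L.le)
  have hfin := hlow.trans hup
  have e : (P : ℝ) / (L + 1) - 1 / (2 * (L + 1)) * P = P * (1 / (2 * (L + 1))) := by
    field_simp
    ring
  rw [e] at hfin
  have h9 := le_of_mul_le_mul_left hfin hP0
  rw [div_le_iff₀ (by positivity)] at h9
  nlinarith

end Pool.Agent.H810R3.Spa
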