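import Pool.Agent.H810R3.Spa.Avg
import Pool.Agent.H810R3.Spa.Weyl

set_option autoImplicit false

/-! Random sparse digits. -/

open MeasureTheory ProbabilityTheory Filter Topology

namespace Pool.Agent.H810R3.Spa

/-- Independent fair digits `0`, `1`. -/
structure Fair {Ω : Type*} [MeasurableSpace Ω] (P : Measure Ω) (ε : ℕ → Ω → ℝ) : Prop where
  meas : ∀ k, Measurable (ε k)
  indep : iIndepFun ε P
  digit : ∀ k ω, ε k ω = 0 ∨ ε k ω = 1
  half : ∀ k, P {ω | ε k ω = 1} = 1 / 2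

theorem ee_continuous : Continuous ee := by
  unfold ee
  fun_prop

theorem ee_zero : ee 0 = 1 := by
  unfold ee
  simp

theorem ee_sum {ι : Type*} (s : Finset ι) (f : ι → ℝ) : ee (∑ i ∈ s, f i) = ∏ i ∈ s, ee (f i) := by
  classical
  induction s using Finset.induction_on with
  | empty => simp [ee_zero]
  | insert i s hi ih => rw [Finset.sum_insert hi, Finset.prod_insert hi, ee_add, ih]

theorem norm_half (x : ℝ) : ‖(1 + ee x) / 2‖ = |Real.cos (Real.pi * x)| := by
  have h1 := half_norm x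
  have h2 : Real.cos (2 * Real.pi * x) = 2 * Real.cos (Real.pi * x) ^ 2 - 1 := by
    rw [← Real.cos_two_mul]
    congr 1
    ring
  rw [h2] at h1
  have h3 : ‖(1 + ee x) / 2‖ ^ 2 = |Real.cos (Real.pi * x)| ^ 2 := by
    rw [h1, sq_abs]
    ring
  exact (pow_left_inj₀ (norm_nonneg _) (abs_nonneg _) two_ne_zero).1 h3

variable {Ω : Type*} [MeasurableSpace Ω] {P : Measure Ω} [IsProbabilityMeasure P] {ε : ℕ → Ω → ℝ}

theorem ee_comp_integrable {X : Ω → ℝ} (hX : Measurable X) : Integrable (fun ω => ee (X ω)) P := by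
  refine ⟨(ee_continuous.measurable.comp hX).aestronglyMeasurable, ?_⟩
  refine HasFiniteIntegral.of_bounded (C := 1) (Eventually.of_forall fun ω => ?_)
  rw [ee_norm]

/-- The characteristic function of a digit. -/
theorem digit_char (h : Fair P ε) (k : ℕ) (s : ℝ) : ∫ ω, ee (s * ε k ω) ∂P = (1 + ee s) / 2 := by
  have e1 : ∀ ω, ee (s * ε k ω) = 1 + (ee s - 1) * ((ε k ω : ℝ) : ℂ) := by
    intro ω
    rcases h.digit k ω with h0 | h0
    · rw [h0, mul_zero, ee_zero]; simp
    · rw [h0, mul_one]; simp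
  have hε : Integrable (fun ω => ε k ω) P := by
    refine ⟨(h.meas k).aestronglyMeasurable, ?_⟩
    refine HasFiniteIntegral.of_bounded (C := 1) (Eventually.of_forall fun ω => ?_)
    rcases h.digit k ω with h0 | h0 <;> rw [h0] <;> simp
  have e2 : ∫ ω, ε k ω ∂P = 1 / 2 := by
    have hS : MeasurableSet {ω | ε k ω = 1} := h.meas k (measurableSet_singleton 1)
    have e3 : ∀ ω, ε k ω = ({ω | ε k ω = 1} : Set Ω).indicator (fun _ => (1 : ℝ)) ω := by
      intro ω
      rcases h.digit k ω with h0 | h0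
      · rw [Set.indicator_of_notMem (by
          intro h1
          have h2 : ε k ω = 1 := h1
          rw [h0] at h2
          norm_num at h2), h0]
      · have h1 : ω ∈ {ω | ε k ω = 1} := h0
        rw [Set.indicator_of_mem h1, h0]
    rw [integral_congr_ae (Eventually.of_forall e3), integral_indicator hS, setIntegral_const]
    rw [measureReal_def, h.half k]
    simp
  rw [integral_congr_ae (Eventually.of_forall e1), integral_add (integrable_const _) (hε.ofReal.const_mul _),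
    integral_const_mul, integral_complex_ofReal, e2]
  simp
  ring

/-- Characteristic function of the partial sums. -/
theorem char_fin (h : Fair P ε) (a : ℕ) (n : ℕ → ℕ) (t : ℝ) (J : ℕ) :
    ‖∫ ω, ee (t * ∑ k ∈ Finset.range J, ε k ω / (a : ℝ) ^ n k) ∂P‖ =
      ∏ k ∈ Finset.range J, |Real.cos (Real.pi * (t / (a : ℝ) ^ n k))| := by
  have e1 : ∀ ω, ee (t * ∑ k ∈ Finset.range J, ε k ω / (a : ℝ) ^ n k) =
      ∏ i : Fin J, (fun x : ℝ => ee (t / (a : ℝ) ^ n i * x)) (ε i ω) := by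
    intro ω
    rw [Finset.mul_sum, ee_sum, Finset.prod_range]
    refine Finset.prod_congr rfl fun i _ => ?_
    congr 1
    ring
  rw [integral_congr_ae (Eventually.of_forall e1)]
  have hind : iIndepFun (fun i : Fin J => ε i) P := h.indep.precomp Fin.val_injective
  rw [hind.integral_fun_prod_comp (f := fun i : Fin J => fun x : ℝ => ee (t / (a : ℝ) ^ n i * x))
    (fun i => (h.meas i).aemeasurable)
    (fun i => (ee_continuous.comp (continuous_const.mul continuous_id)).aestronglyMeasurable)]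
  rw [norm_prod, Finset.prod_range]
  refine Finset.prod_congr rfl fun i _ => ?_
  rw [digit_char h, norm_half]

/-- The random number. -/
noncomputable def X (a : ℕ) (n : ℕ → ℕ) (ε : ℕ → Ω → ℝ) (ω : Ω) : ℝ := ∑' k, ε k ω / (a : ℝ) ^ n k

theorem X_summable (h : Fair P ε) {a : ℕ} (ha : 2 ≤ a) {n : ℕ → ℕ} (hn : StrictMono n) (ω : Ω) :
    Summable (fun k => ε k ω / (a : ℝ) ^ n k) := by
  have ha' : (2 : ℝ) ≤ a := by exact_mod_cast ha
  refine Summable.of_nonneg_of_le (fun k => ?_) (fun k => ?_)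
    (summable_geometric_of_lt_one (r := (1 / 2 : ℝ)) (by norm_num) (by norm_num))
  · rcases h.digit k ω with h0 | h0 <;> rw [h0] <;> positivity
  · have h1 : ε k ω ≤ 1 := by rcases h.digit k ω with h0 | h0 <;> rw [h0] <;> norm_num
    have h2 : (2 : ℝ) ^ k ≤ (a : ℝ) ^ n k := by
      calc (2 : ℝ) ^ k ≤ 2 ^ n k := pow_le_pow_right₀ (by norm_num) (hn.le_apply)
        _ ≤ (a : ℝ) ^ n k := pow_le_pow_left₀ (by norm_num) ha' _
    rw [one_div, inv_pow, ← one_div, div_le_div_iff₀ (by positivity) (by positivity)]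
    nlinarith [show (0 : ℝ) < 2 ^ k by positivity]

theorem X_measurable (h : Fair P ε) {a : ℕ} (ha : 2 ≤ a) {n : ℕ → ℕ} (hn : StrictMono n) :
    Measurable (X a n ε) := by
  refine measurable_of_tendsto_metrizable (f := fun J ω => ∑ k ∈ Finset.range J, ε k ω / (a : ℝ) ^ n k)
    (fun J => Finset.measurable_fun_sum _ fun k _ => (h.meas k).div_const _) ?_
  rw [tendsto_pi_nhds]
  intro ω
  exact (X_summable h ha hn ω).hasSum.tendsto_sum_nat

/-- Bound for the characteristic function of the random number. -/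
theorem char_inf (h : Fair P ε) {a : ℕ} (ha : 2 ≤ a) {n : ℕ → ℕ} (hn : StrictMono n) (t : ℝ) (S : Finset ℕ) :
    ‖∫ ω, ee (t * X a n ε ω) ∂P‖ ≤ ∏ k ∈ S, |Real.cos (Real.pi * (t / (a : ℝ) ^ n k))| := by
  have hlim : Tendsto (fun J : ℕ => ∫ ω, ee (t * ∑ k ∈ Finset.range J, ε k ω / (a : ℝ) ^ n k) ∂P) atTop
      (𝓝 (∫ ω, ee (t * X a n ε ω) ∂P)) := by
    refine tendsto_integral_of_dominated_convergence (fun _ => (1 : ℝ)) ?_ (integrable_const _) ?_ ?_
    · intro J
      refine (ee_continuous.measurable.comp ?_).aestronglyMeasurable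
      exact (Finset.measurable_fun_sum _ fun k _ => (h.meas k).div_const _).const_mul _
    · intro J
      exact Eventually.of_forall fun ω => by rw [ee_norm]
    · refine Eventually.of_forall fun ω => ?_
      exact (ee_continuous.tendsto _).comp
        ((X_summable h ha hn ω).hasSum.tendsto_sum_nat.const_mul t)
  refine le_of_tendsto hlim.norm ?_
  obtain ⟨J₀, hJ₀⟩ := S.exists_nat_subset_range
  filter_upwards [eventually_ge_atTop J₀] with J hJ
  rw [char_fin h]
  have hsub : S ⊆ Finset.range J := hJ₀.trans (Finset.range_mono hJ)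
  rw [← Finset.prod_sdiff hsub]
  have h1 : ∏ k ∈ Finset.range J \ S, |Real.cos (Real.pi * (t / (a : ℝ) ^ n k))| ≤ 1 :=
    Finset.prod_le_one (fun k _ => abs_nonneg _) (fun k _ => Real.abs_cos_le_one _)
  have h2 : 0 ≤ ∏ k ∈ S, |Real.cos (Real.pi * (t / (a : ℝ) ^ n k))| :=
    Finset.prod_nonneg fun k _ => abs_nonneg _
  nlinarith

/-- The second moment of the exponential sums. -/
theorem second (h : Fair P ε) {a b : ℕ} (ha : 2 ≤ a) (hab : Nat.Coprime a b) {n : ℕ → ℕ}
    (hn : StrictMono n) {t E : ℕ} (ht : 0 < t)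
    (hpow : ∀ j : ℕ, ∃ w : ℤ, IsCoprime w (a : ℤ) ∧ (b : ℤ) ^ (t * a ^ j) = 1 + E * a ^ j * w)
    (hE : 0 < E) {l : ℕ} (hl : 1 ≤ l) {c : ℕ} (hc : l * E < a ^ c) (J : ℕ) :
    ∫ ω, ‖∑ m ∈ Finset.range (t * a ^ n (2 * c + (c + 1) * J)), ee (l * ((b : ℝ) ^ m * X a n ε ω))‖ ^ 2 ∂P ≤
      (17 / 24) ^ J * ((t * a ^ n (2 * c + (c + 1) * J) : ℕ) : ℝ) ^ 2 := by
  set N := n (2 * c + (c + 1) * J) with hN
  set M : ℕ := t * a ^ N with hM
  have hgap : ∀ k i : ℕ, n k + i ≤ n (k + i) := by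
    intro k i
    induction i with
    | zero => simp
    | succ i ih =>
      have := hn (show k + i < k + (i + 1) by omega)
      omega
  set p : ℕ → ℕ := fun j => n (2 * c + (c + 1) * j) with hp
  have hp0 : 2 * c ≤ p 0 := by
    simp only [hp, mul_zero, add_zero]
    exact hn.le_apply
  have hps : ∀ j, p j + c ≤ p (j + 1) := by
    intro j
    have := hgap (2 * c + (c + 1) * j) (c + 1)
    have e : 2 * c + (c + 1) * (j + 1) = 2 * c + (c + 1) * j + (c + 1) := by ring
    simp only [hp]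
    rw [e]
    omega
  have hpN : ∀ j < J, p j ≤ N := by
    intro j hj
    apply hn.monotone
    have : (c + 1) * j ≤ (c + 1) * J := Nat.mul_le_mul_left _ hj.le
    omega
  have hXm := X_measurable h ha hn
  have hpair : ∀ m m' : ℕ, ‖∫ ω, ee ((l * ((b : ℝ) ^ m - (b : ℝ) ^ m')) * X a n ε ω) ∂P‖ ≤
      ∏ j ∈ Finset.range J, gg a (p j) l ((b : ℤ) ^ m') ((b : ℤ) ^ m) := by
    intro m m'
    have h1 := char_inf h ha hn (l * ((b : ℝ) ^ m - (b : ℝ) ^ m'))
      ((Finset.range J).image fun j => 2 * c + (c + 1) * j)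
    rw [Finset.prod_image (by
      intro x _ y _ hxy
      simp only at hxy
      have h2 : (c + 1) * x = (c + 1) * y := by omega
      exact Nat.eq_of_mul_eq_mul_left (by omega) h2)] at h1
    refine h1.trans (le_of_eq ?_)
    refine Finset.prod_congr rfl fun j _ => ?_
    unfold gg
    push_cast
    rfl
  have hC : ((∫ ω, ‖∑ m ∈ Finset.range M, ee (l * ((b : ℝ) ^ m * X a n ε ω))‖ ^ 2 ∂P : ℝ) : ℂ) =
      ∑ m' ∈ Finset.range M, ∑ m ∈ Finset.range M,
        ∫ ω, ee ((l * ((b : ℝ) ^ m - (b : ℝ) ^ m')) * X a n ε ω) ∂P := by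
    rw [← integral_complex_ofReal]
    have e1 : ∀ ω, ((‖∑ m ∈ Finset.range M, ee (l * ((b : ℝ) ^ m * X a n ε ω))‖ ^ 2 : ℝ) : ℂ) =
        ∑ m' ∈ Finset.range M, ∑ m ∈ Finset.range M, ee ((l * ((b : ℝ) ^ m - (b : ℝ) ^ m')) * X a n ε ω) := by
      intro ω
      rw [← Complex.normSq_eq_norm_sq, ← Complex.mul_conj, map_sum, Finset.sum_mul_sum, Finset.sum_comm]
      refine Finset.sum_congr rfl fun m' _ => Finset.sum_congr rfl fun m _ => ?_
      rw [ee_conj, ← ee_add]
      congr 1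
      ring
    rw [integral_congr_ae (Eventually.of_forall e1)]
    have hint : ∀ m m' : ℕ, Integrable (fun ω => ee ((l * ((b : ℝ) ^ m - (b : ℝ) ^ m')) * X a n ε ω)) P :=
      fun m m' => ee_comp_integrable (hXm.const_mul _)
    rw [integral_finsetSum _ fun m' _ => integrable_finsetSum _ fun m _ => hint m m']
    refine Finset.sum_congr rfl fun m' _ => ?_
    rw [integral_finsetSum _ fun m _ => hint m m']
  have hnn : 0 ≤ ∫ ω, ‖∑ m ∈ Finset.range M, ee (l * ((b : ℝ) ^ m * X a n ε ω))‖ ^ 2 ∂P :=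
    integral_nonneg fun ω => by positivity
  have hnorm : ∫ ω, ‖∑ m ∈ Finset.range M, ee (l * ((b : ℝ) ^ m * X a n ε ω))‖ ^ 2 ∂P =
      ‖((∫ ω, ‖∑ m ∈ Finset.range M, ee (l * ((b : ℝ) ^ m * X a n ε ω))‖ ^ 2 ∂P : ℝ) : ℂ)‖ := by
    rw [Complex.norm_real, Real.norm_of_nonneg hnn]
  rw [hnorm, hC]
  have hcz : (|(l : ℤ)| * E : ℤ) < a ^ c := by
    rw [Nat.abs_cast]
    exact_mod_cast hc
  calc ‖∑ m' ∈ Finset.range M, ∑ m ∈ Finset.range M,
        ∫ ω, ee ((l * ((b : ℝ) ^ m - (b : ℝ) ^ m')) * X a n ε ω) ∂P‖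
      ≤ ∑ m' ∈ Finset.range M, ∑ m ∈ Finset.range M,
        ∏ j ∈ Finset.range J, gg a (p j) l ((b : ℤ) ^ m') ((b : ℤ) ^ m) :=
        norm_sum_le_of_le _ fun m' _ => norm_sum_le_of_le _ fun m _ => hpair m m'
    _ ≤ ∑ _m' ∈ Finset.range M, (17 / 24) ^ J * (M : ℝ) :=
        Finset.sum_le_sum fun m' _ => prod_mean ha hab ht hpow hE (by exact_mod_cast (by omega : l ≠ 0)) hcz _ p
          hp0 hps N J hpN
    _ = (17 / 24) ^ J * (M : ℝ) ^ 2 := by
        rw [Finset.sum_const, Finset.card_range, nsmul_eq_mul]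
        ring

end Pool.Agent.H810R3.Spa
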